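import Mathlib

/-!
# Cyclic sorting by transpositions: `t(n) ≤ n - 3` when `n ≥ 4` has a common factor with `6`
-/

namespace Pool.Agent.Results.MP_02ec02_co.CommonFactorSix

open Equiv Finset

/-- The number of cycles of `σ`, fixed points included. -/
def cyc {n : ℕ} [NeZero n] (σ : Perm (ZMod n)) : ℕ :=
  σ.cycleType.card + (univ.filter fun x => σ x = x).card

/-- The `n`-cycle `x ↦ x + 1`. -/
def c (n : ℕ) : Perm (ZMod n) := Equiv.addRight 1

/-- The sorting time of the class `π C_n`: the minimum of `n - cyc σ` over `σ ∈ π C_n`. -/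
noncomputable def sortTime {n : ℕ} [NeZero n] (π : Perm (ZMod n)) : ℕ :=
  ⨅ k : ℤ, (n - cyc (π * c n ^ k))

/-- The maximal cyclic sorting time `t(n)`. -/
noncomputable def t (n : ℕ) [NeZero n] : ℕ := ⨆ π : Perm (ZMod n), sortTime π

variable {n : ℕ} [NeZero n]

omit [NeZero n] in
theorem c_zpow_apply (k : ℤ) (x : ZMod n) : (c n ^ k) x = x + k := by
  have h : ∀ m : ℕ, ∀ x : ZMod n, (c n ^ m) x = x + m := by
    intro m
    induction m with
    | zero => intro x; simp
    | succ m ih =>
      intro x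
      rw [pow_succ, Perm.mul_apply, ih]
      change (x + 1) + (m : ZMod n) = _
      push_cast
      ring
  cases k with
  | ofNat m => simpa using h m x
  | negSucc m =>
    rw [zpow_negSucc, Perm.inv_eq_iff_eq, h]
    push_cast
    ring

theorem c_isCycle (hn : 4 ≤ n) : (c n).IsCycle ∧ (c n).support.card = n := by
  haveI : Fact (1 < n) := ⟨by omega⟩
  have h1 : ∀ x : ZMod n, c n x ≠ x := by
    intro x hx
    have : x + 1 = x := hx
    exact one_ne_zero (add_eq_left.mp this)
  refine ⟨⟨0, h1 0, fun y _ => ⟨(y.val : ℤ), ?_⟩⟩, ?_⟩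
  · rw [c_zpow_apply]
    simp
  · have : (c n).support = univ := by
      ext x
      simp only [Perm.mem_support, mem_univ, iff_true]
      exact h1 x
    rw [this, Finset.card_univ, ZMod.card]

theorem fix_le_one (hn : 4 ≤ n) {σ : Perm (ZMod n)} (h : cyc σ ≤ 2) :
    (univ.filter fun x => σ x = x).card ≤ 1 := by
  by_contra h2
  push Not at h2
  unfold cyc at h
  have h3 : σ.cycleType.card = 0 := by omega
  rw [Multiset.card_eq_zero, Perm.cycleType_eq_zero] at h3
  subst h3
  have : (univ.filter fun x : ZMod n => (1 : Perm (ZMod n)) x = x).card = n := by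
    simp [ZMod.card]
  omega

theorem sum_fix (π : Perm (ZMod n)) :
    ∑ k : ZMod n, (univ.filter fun x => π (x + k) = x).card = n := by
  simp_rw [Finset.card_filter]
  rw [Finset.sum_comm]
  have : ∀ x : ZMod n, ∑ k : ZMod n, (if π (x + k) = x then 1 else 0) = 1 := by
    intro x
    rw [← Finset.card_filter, Finset.card_eq_one]
    refine ⟨π.symm x - x, ?_⟩
    ext k
    simp only [mem_filter, mem_univ, true_and, mem_singleton]
    rw [← Equiv.eq_symm_apply]
    constructor
    · intro h; rw [← h]; ring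
    · intro h; rw [h]; ring
  rw [Finset.sum_congr rfl (fun x _ => this x)]
  simp

theorem cyc_shift (π : Perm (ZMod n)) (h : ∀ k : ℤ, cyc (π * c n ^ k) ≤ 2) (k : ZMod n) :
    cyc (π * Equiv.addRight k) ≤ 2 := by
  have h1 := h (k.val : ℤ)
  have : c n ^ (k.val : ℤ) = Equiv.addRight k := by
    ext1 x
    rw [c_zpow_apply]
    simp
  rwa [this] at h1

/-- If all elements of `π C_n` have at most two cycles, they all have exactly one fixed point. -/
theorem fix_eq_one (hn : 4 ≤ n) {π : Perm (ZMod n)}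
    (h : ∀ k : ZMod n, cyc (π * Equiv.addRight k) ≤ 2) (k : ZMod n) :
    (univ.filter fun x => (π * Equiv.addRight k) x = x).card = 1 := by
  have h1 : ∀ k : ZMod n, (univ.filter fun x => π (x + k) = x).card ≤ 1 := fun k =>
    fix_le_one hn (h k)
  by_contra h2
  have h3 : (univ.filter fun x => π (x + k) = x).card < 1 := lt_of_le_of_ne (h1 k) h2
  have h4 : ∑ k : ZMod n, (univ.filter fun x => π (x + k) = x).card < ∑ k : ZMod n, 1 :=
    Finset.sum_lt_sum (fun k _ => h1 k) ⟨k, mem_univ _, h3⟩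
  rw [sum_fix] at h4
  simp at h4

theorem isCycle (hn : 4 ≤ n) {π : Perm (ZMod n)}
    (h : ∀ k : ZMod n, cyc (π * Equiv.addRight k) ≤ 2) (k : ZMod n) :
    (π * Equiv.addRight k).IsCycle ∧ (π * Equiv.addRight k).support.card = n - 1 := by
  have h1 := fix_eq_one hn h k
  have h2 := h k
  unfold cyc at h2
  rw [h1] at h2
  have h3 : (π * Equiv.addRight k).support.card = n - 1 := by
    have e : (univ.filter fun x => (π * Equiv.addRight k) x = x) =
        ((π * Equiv.addRight k).support)ᶜ := by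
      ext x; simp [Perm.mem_support]
    rw [e, Finset.card_compl, ZMod.card] at h1
    have : (π * Equiv.addRight k).support.card ≤ n := by
      have := Finset.card_le_univ (π * Equiv.addRight k).support
      rwa [ZMod.card] at this
    omega
  refine ⟨?_, h3⟩
  rw [← Perm.card_cycleType_eq_one]
  have h4 : (π * Equiv.addRight k).cycleType.card ≠ 0 := by
    intro h5
    rw [Multiset.card_eq_zero, Perm.cycleType_eq_zero] at h5
    rw [h5] at h3
    simp at h3
    omega
  omega

theorem no_two_cycle (hn : 4 ≤ n) {π : Perm (ZMod n)}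
    (h : ∀ k : ZMod n, cyc (π * Equiv.addRight k) ≤ 2) (k x y : ZMod n)
    (hxy : π (x + k) = y) (hyx : π (y + k) = x) : x = y := by
  obtain ⟨h1, h2⟩ := isCycle hn h k
  by_contra hne
  have h3 : ((π * Equiv.addRight k) ^ 2) x = x := by
    rw [pow_two, Perm.mul_apply]
    have : (π * Equiv.addRight k) x = y := hxy
    rw [this]
    exact hyx
  have h4 : (π * Equiv.addRight k) ^ 2 = 1 := by
    rw [h1.pow_eq_one_iff]
    refine ⟨x, ?_, h3⟩
    intro h5
    exact hne (h5.symm.trans hxy)
  have h5 := orderOf_dvd_of_pow_eq_one h4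
  rw [h1.orderOf, h2] at h5
  have := Nat.le_of_dvd (by norm_num) h5
  omega

/-- The sum of the squares of all residues. -/
theorem two_sum_sq_ne (h3 : 3 ∣ n) : (2 : ZMod n) * ∑ x : ZMod n, x ^ 2 ≠ 0 := by
  have e : ∑ x : ZMod n, x ^ 2 = ((∑ i ∈ range n, i ^ 2 : ℕ) : ZMod n) := by
    push_cast
    refine Finset.sum_nbij' (fun x => x.val) (fun i => (i : ZMod n)) ?_ ?_ ?_ ?_ ?_
    · intro x _; exact mem_range.mpr (ZMod.val_lt x)
    · intro i _; exact mem_univ _
    · intro x _; exact ZMod.natCast_zmod_val x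
    · intro i hi; exact ZMod.val_natCast_of_lt (mem_range.mp hi)
    · intro x _; rw [ZMod.natCast_zmod_val]
  have e6 : ∀ m : ℕ, 6 * (∑ i ∈ range (m + 1), i ^ 2) = (m + 1) * m * (2 * m + 1) := by
    intro m
    induction m with
    | zero => simp
    | succ m ih => rw [Finset.sum_range_succ, mul_add, ih]; ring
  intro h
  rw [e] at h
  have h' : (((2 * ∑ i ∈ range n, i ^ 2 : ℕ)) : ZMod n) = 0 := by
    rw [Nat.cast_mul]; exact_mod_cast h
  rw [ZMod.natCast_eq_zero_iff] at h'
  obtain ⟨m, hm⟩ : ∃ m, n = m + 1 := ⟨n - 1, by have := NeZero.pos n; omega⟩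
  have e7 := e6 m
  rw [← hm] at e7
  obtain ⟨q, hq⟩ := h'
  have e8 : n * (3 * q) = n * (m * (2 * m + 1)) := by
    calc n * (3 * q) = 3 * (n * q) := by ring
      _ = 3 * (2 * ∑ i ∈ range n, i ^ 2) := by rw [hq]
      _ = 6 * (∑ i ∈ range n, i ^ 2) := by ring
      _ = n * m * (2 * m + 1) := e7
      _ = n * (m * (2 * m + 1)) := by ring
  have e9 : 3 * q = m * (2 * m + 1) := Nat.eq_of_mul_eq_mul_left (NeZero.pos n) e8
  obtain ⟨r, hr⟩ := h3
  have hm2 : m = 3 * r - 1 := by omega
  have hr0 : 0 < r := by have := NeZero.pos n; omega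
  obtain ⟨s, rfl⟩ : ∃ s, r = s + 1 := ⟨r - 1, by omega⟩
  have hm3 : m = 3 * s + 2 := by omega
  rw [hm3] at e9
  have : (3 * s + 2) * (2 * (3 * s + 2) + 1) = 3 * (6 * s ^ 2 + 9 * s + 3) + 1 := by ring
  omega

theorem key (hn : 4 ≤ n) (h6 : 2 ∣ n ∨ 3 ∣ n) (π : Perm (ZMod n)) :
    ∃ k : ℤ, 3 ≤ cyc (π * c n ^ k) := by
  by_contra hcon
  push Not at hcon
  have h : ∀ k : ZMod n, cyc (π * Equiv.addRight k) ≤ 2 :=
    cyc_shift π (fun k => by have := hcon k; omega)
  rcases h6 with h2 | h3
  · -- even `n`: signs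
    obtain ⟨c0, s0⟩ := isCycle hn h 0
    obtain ⟨c1, s1⟩ := isCycle hn h 1
    have e0 := c0.sign
    have e1 := c1.sign
    rw [s0] at e0
    rw [s1] at e1
    have e2 : Perm.sign (π * Equiv.addRight (1 : ZMod n)) =
        Perm.sign (π * Equiv.addRight (0 : ZMod n)) := by rw [e0, e1]
    rw [Perm.sign_mul, Perm.sign_mul] at e2
    have e3 : Perm.sign (Equiv.addRight (1 : ZMod n)) = Perm.sign (Equiv.addRight (0 : ZMod n)) :=
      mul_left_cancel e2
    have e4 : Equiv.addRight (0 : ZMod n) = 1 := by ext x; simp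
    rw [e4, Perm.sign_one] at e3
    obtain ⟨d1, d2⟩ := c_isCycle (n := n) hn
    have e5 := d1.sign
    rw [d2, (even_iff_two_dvd.mpr h2).neg_one_pow] at e5
    have e6 : Perm.sign (c n) = 1 := e3
    rw [e6] at e5
    exact absurd e5 (by decide)
  · -- `3 ∣ n`: both `ρ(x) - x` and `ρ(x) + x` are bijections for `ρ = π⁻¹`
    have hminus : Function.Injective fun x => π.symm x - x := by
      intro x y hxy
      have hxy' : π.symm x - x = π.symm y - y := hxy
      have hk := fix_eq_one hn h (π.symm x - x)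
      rw [Finset.card_eq_one] at hk
      obtain ⟨a, ha⟩ := hk
      have hx : x ∈ univ.filter fun z => (π * Equiv.addRight (π.symm x - x)) z = z := by
        rw [mem_filter]
        refine ⟨mem_univ _, ?_⟩
        change π (x + (π.symm x - x)) = x
        rw [add_sub_cancel, Equiv.apply_symm_apply]
      have hy : y ∈ univ.filter fun z => (π * Equiv.addRight (π.symm x - x)) z = z := by
        rw [mem_filter]
        refine ⟨mem_univ _, ?_⟩
        change π (y + (π.symm x - x)) = y
        rw [hxy', add_sub_cancel, Equiv.apply_symm_apply]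
      rw [ha, mem_singleton] at hx hy
      rw [hx, hy]
    have hplus : Function.Injective fun x => π.symm x + x := by
      intro x y hxy
      have hxy' : π.symm x + x = π.symm y + y := hxy
      refine no_two_cycle hn h (π.symm y - x) x y ?_ ?_
      · rw [add_sub_cancel, Equiv.apply_symm_apply]
      · have : y + (π.symm y - x) = π.symm x := by
          have : π.symm x = π.symm y + y - x := by rw [← hxy']; ring
          rw [this]; ring
        rw [this, Equiv.apply_symm_apply]
    have bminus : Function.Bijective fun x => π.symm x - x :=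
      Finite.injective_iff_bijective.mp hminus
    have bplus : Function.Bijective fun x => π.symm x + x :=
      Finite.injective_iff_bijective.mp hplus
    have s1 : ∑ x, (π.symm x - x) ^ 2 = ∑ x : ZMod n, x ^ 2 :=
      bminus.sum_comp (fun x => x ^ 2)
    have s2 : ∑ x, (π.symm x + x) ^ 2 = ∑ x : ZMod n, x ^ 2 :=
      bplus.sum_comp (fun x => x ^ 2)
    have s3 : ∑ x, (π.symm x) ^ 2 = ∑ x : ZMod n, x ^ 2 :=
      Equiv.sum_comp π.symm (fun x => x ^ 2)
    have s4 : ∑ x, (π.symm x - x) ^ 2 + ∑ x, (π.symm x + x) ^ 2 =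
        2 * ∑ x, (π.symm x) ^ 2 + 2 * ∑ x : ZMod n, x ^ 2 := by
      rw [← Finset.sum_add_distrib, Finset.mul_sum, Finset.mul_sum, ← Finset.sum_add_distrib]
      refine Finset.sum_congr rfl fun x _ => ?_
      ring
    rw [s1, s2, s3] at s4
    apply two_sum_sq_ne h3
    have : (2 : ZMod n) * ∑ x : ZMod n, x ^ 2 =
      (2 * ∑ x : ZMod n, x ^ 2 + 2 * ∑ x : ZMod n, x ^ 2) -
        (∑ x : ZMod n, x ^ 2 + ∑ x : ZMod n, x ^ 2) := by ring
    rw [this, s4, sub_self]

/-- If `n ≥ 4` is divisible by `2` or by `3`, then `t(n) ≤ n - 3`. -/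
theorem result (n : ℕ) [NeZero n] (hn : 4 ≤ n) (h6 : 2 ∣ n ∨ 3 ∣ n) : t n ≤ n - 3 := by
  refine ciSup_le fun π => ?_
  obtain ⟨k, hk⟩ := key hn h6 π
  refine (ciInf_le ⟨0, ?_⟩ k).trans ?_
  · rintro _ ⟨j, rfl⟩; exact Nat.zero_le _
  · omega

end Pool.Agent.Results.MP_02ec02_co.CommonFactorSix
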